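import Pool.Agent.Helper95.GB.TH.Defs

/-! # GB/TH/Tensor: the global tensor

Let `R` be a system of routes in the graph minus `v`.  Put
`pp e k = ∑ (a,b) ∈ ro e, ([b = inl k] - [a = inl k])` (an integer).

`pp_sum`: `∑ k, pp e k * (u (ed k) - u (be (vt k))) = u e - u (rt e)` for all `u : E → ℤ`.  Proof: a pair `(a,b)` at
the vertex `w` contributes `(u (de b) - u (be w)) - (u (de a) - u (be w)) = u (de b) - u (de a)` (for `inr w` the
bracket is `u (be w) - u (be w) = 0`); by induction on the length of `ro e` with `r3` (`ro e = ro (de a) ++ [(a,b)]`,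
`de b = e`, `rt (de a) = rt e`) and `r2` the sum telescopes.
`pp_v`: `pp e k = 0` if `vt k = v` (all half-edges in `ro e` are at vertices `≠ v`: `r3` and induction).

Let `τ` be as in `Lharm3 v τ`.  For `j` let `κ j i = (if i = j then 1 else 0) - pp (ed j) i + pp (be v) i`, and
`Φ i₁ i₂ i₃ = ∑ j₁, ∑ j₂, ∑ j₃, τ j₁ j₂ j₃ * κ j₁ i₁ * κ j₂ i₂ * κ j₃ i₃`.
* `Alt3 Φ`: rename the summation indices, `Alt3 τ`.
* `Harm3`: `∑ i, κ j i * (u (ed i) - u (be (vt i))) = u (rt (ed j)) - u (rt (be v))` for `j` at `v` (by `pp_sum`), and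
`u' = u ∘ rt` satisfies `Loc v u'` by `r1`; so the sum over `j₁` vanishes by `Lharm3` (only `j₁` at `v` contribute, where
`be (vt j₁) = be v`).
* for `i₁, i₂, i₃` at `v`: `κ j i = [i = j]` by `pp_v`, so `Φ = τ`.
-/

set_option autoImplicit false

namespace GB

namespace DG

variable {V J E : Type} [Fintype J] {S : DG V J E} {v : V}

/-- the chain of a route -/
noncomputable def Routes.pp (R : S.Routes v) (e : E) (k : J) : ℤ := by
  classical exact ((R.ro e).map (fun p => (if p.2 = Sum.inl k then (1 : ℤ) else 0) -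
    (if p.1 = Sum.inl k then (1 : ℤ) else 0))).sum

noncomputable def Routes.κ (R : S.Routes v) (j i : J) : ℤ := by
  classical exact (if i = j then (1 : ℤ) else 0) - R.pp (S.ed j) i + R.pp (S.be v) i

noncomputable def Routes.Φ (R : S.Routes v) (τ : J → J → J → ℤ) (i₁ i₂ i₃ : J) : ℤ :=
  ∑ j₁, ∑ j₂, ∑ j₃, τ j₁ j₂ j₃ * R.κ j₁ i₁ * R.κ j₂ i₂ * R.κ j₃ i₃

open Classical in
theorem sum_ind_tn (u : E → ℤ) (x : J ⊕ V) :
    ∑ k, (if x = Sum.inl k then (1 : ℤ) else 0) * (u (S.ed k) - u (S.be (S.vt k))) =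
      u (S.de x) - u (S.be (S.dv x)) := by
  rcases x with j | w
  · simp only [Sum.inl.injEq, ite_mul, one_mul, zero_mul, Finset.sum_ite_eq, Finset.mem_univ,
      if_true]
    rfl
  · simp [de, dv]

theorem Routes.pp_sum_aux_tn (R : S.Routes v) (u : E → ℤ) (l : List ((J ⊕ V) × (J ⊕ V)))
    (e : E) (h : R.ro e = l) :
    ∑ k, R.pp e k * (u (S.ed k) - u (S.be (S.vt k))) = u e - u (R.rt e) := by
  classical
  induction l using List.reverseRecOn generalizing e with
  | nil =>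
    have : ∀ k, R.pp e k = 0 := by
      intro k
      simp [Routes.pp, h]
    simp only [this, zero_mul, Finset.sum_const_zero]
    rw [← R.r2 e h, sub_self]
  | append_singleton l p ih =>
    obtain ⟨a, b⟩ := p
    obtain ⟨g1, g2, g3, g4, g5, g6⟩ := R.r3 e l a b h
    have ih' := ih (S.de a) g5
    have hpp : ∀ k, R.pp e k = R.pp (S.de a) k +
        ((if b = Sum.inl k then (1 : ℤ) else 0) - (if a = Sum.inl k then (1 : ℤ) else 0)) := by
      intro k
      simp [Routes.pp, h, g5]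
    simp only [hpp, add_mul, sub_mul, Finset.sum_add_distrib, Finset.sum_sub_distrib]
    rw [ih', sum_ind_tn, sum_ind_tn, g6, g4, g1]
    ring

theorem Routes.pp_sum (R : S.Routes v) (e : E) (u : E → ℤ) :
    ∑ k, R.pp e k * (u (S.ed k) - u (S.be (S.vt k))) = u e - u (R.rt e) :=
  R.pp_sum_aux_tn u _ e rfl

omit [Fintype J] in
theorem Routes.ne_v_tn (R : S.Routes v) (l : List ((J ⊕ V) × (J ⊕ V)))
    (e : E) (h : R.ro e = l) : ∀ p ∈ l, S.dv p.1 ≠ v ∧ S.dv p.2 ≠ v := by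
  induction l using List.reverseRecOn generalizing e with
  | nil => simp
  | append_singleton l p ih =>
    obtain ⟨a, b⟩ := p
    obtain ⟨g1, g2, g3, g4, g5, g6⟩ := R.r3 e l a b h
    intro q hq
    rcases List.mem_append.1 hq with hq | hq
    · exact ih _ g5 q hq
    · rw [List.mem_singleton] at hq
      subst hq
      exact ⟨g2, fun hc => g2 (g1.trans hc)⟩

theorem Routes.pp_v (R : S.Routes v) (e : E) (k : J) (h : S.vt k = v) : R.pp e k = 0 := by
  classical
  unfold Routes.pp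
  apply List.sum_eq_zero
  intro x hx
  obtain ⟨p, hp, rfl⟩ := List.mem_map.1 hx
  obtain ⟨h1, h2⟩ := R.ne_v_tn _ e rfl p hp
  have e1 : p.1 ≠ Sum.inl k := by
    intro hc; rw [hc] at h1; exact h1 h
  have e2 : p.2 ≠ Sum.inl k := by
    intro hc; rw [hc] at h2; exact h2 h
  simp [e1, e2]

theorem Routes.Φ_alt (R : S.Routes v) (τ : J → J → J → ℤ) (hτ : S.Lharm3 v τ) :
    Alt3 (R.Φ τ) := by
  obtain ⟨⟨h1, h2⟩, -, -⟩ := hτ
  refine ⟨?_, ?_⟩
  · intro i j k
    unfold Routes.Φ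
    rw [Finset.sum_comm, ← Finset.sum_neg_distrib]
    refine Finset.sum_congr rfl (fun a _ => ?_)
    rw [← Finset.sum_neg_distrib]
    refine Finset.sum_congr rfl (fun b _ => ?_)
    rw [← Finset.sum_neg_distrib]
    refine Finset.sum_congr rfl (fun c _ => ?_)
    rw [h1 a b c]
    ring
  · intro i j k
    unfold Routes.Φ
    rw [← Finset.sum_neg_distrib]
    refine Finset.sum_congr rfl (fun a _ => ?_)
    rw [Finset.sum_comm, ← Finset.sum_neg_distrib]
    refine Finset.sum_congr rfl (fun b _ => ?_)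
    rw [← Finset.sum_neg_distrib]
    refine Finset.sum_congr rfl (fun c _ => ?_)
    rw [h2 a b c]
    ring

theorem Routes.κ_sum_tn (R : S.Routes v) (j : J) (hj : S.vt j = v) (u : E → ℤ) :
    ∑ i, R.κ j i * (u (S.ed i) - u (S.be (S.vt i))) =
      u (R.rt (S.ed j)) - u (R.rt (S.be (S.vt j))) := by
  classical
  have h : ∀ i, R.κ j i * (u (S.ed i) - u (S.be (S.vt i))) =
      (if j = i then (u (S.ed i) - u (S.be (S.vt i))) else 0)
      - R.pp (S.ed j) i * (u (S.ed i) - u (S.be (S.vt i)))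
      + R.pp (S.be v) i * (u (S.ed i) - u (S.be (S.vt i))) := by
    intro i
    unfold Routes.κ
    by_cases hij : i = j
    · simp only [hij, if_true]; ring
    · rw [if_neg hij, if_neg (Ne.symm hij)]; ring
  simp only [h, Finset.sum_add_distrib, Finset.sum_sub_distrib]
  rw [R.pp_sum, R.pp_sum, Finset.sum_ite_eq]
  simp only [Finset.mem_univ, if_true, hj]
  ring

theorem Routes.Φ_harm (R : S.Routes v) (τ : J → J → J → ℤ) (hτ : S.Lharm3 v τ) :
    S.Harm3 (R.Φ τ) := by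
  obtain ⟨-, h2, h3⟩ := hτ
  intro i j u
  have hloc : S.Loc v (fun e => u (R.rt e)) := by
    intro k hk
    show u (R.rt (S.ed k)) = u (R.rt (S.be (S.vt k)))
    rw [R.r1 (S.ed k) (S.be (S.vt k)) ⟨k, hk, Or.inl ⟨rfl, rfl⟩⟩]
  have key : ∀ j₂ j₃, ∑ j₁, τ j₁ j₂ j₃ * ∑ k, R.κ j₁ k * (u (S.ed k) - u (S.be (S.vt k))) = 0 := by
    intro j₂ j₃
    rw [← h3 _ hloc j₂ j₃]
    refine Finset.sum_congr rfl (fun j₁ _ => ?_)
    by_cases hj : S.vt j₁ = v
    · rw [R.κ_sum_tn j₁ hj u]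
    · rw [h2 j₁ j₂ j₃ hj]; ring
  calc ∑ k, R.Φ τ k i j * (u (S.ed k) - u (S.be (S.vt k)))
      = ∑ k, ∑ j₁, ∑ j₂, ∑ j₃, R.κ j₂ i * R.κ j₃ j *
          (τ j₁ j₂ j₃ * (R.κ j₁ k * (u (S.ed k) - u (S.be (S.vt k))))) := by
        refine Finset.sum_congr rfl (fun k _ => ?_)
        unfold Routes.Φ
        rw [Finset.sum_mul]
        refine Finset.sum_congr rfl (fun j₁ _ => ?_)
        rw [Finset.sum_mul]
        refine Finset.sum_congr rfl (fun j₂ _ => ?_)
        rw [Finset.sum_mul]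
        refine Finset.sum_congr rfl (fun j₃ _ => ?_)
        ring
    _ = ∑ j₁, ∑ j₂, ∑ j₃, ∑ k, R.κ j₂ i * R.κ j₃ j *
          (τ j₁ j₂ j₃ * (R.κ j₁ k * (u (S.ed k) - u (S.be (S.vt k))))) := by
        rw [Finset.sum_comm]
        refine Finset.sum_congr rfl (fun j₁ _ => ?_)
        rw [Finset.sum_comm]
        refine Finset.sum_congr rfl (fun j₂ _ => ?_)
        rw [Finset.sum_comm]
    _ = ∑ j₂, ∑ j₃, R.κ j₂ i * R.κ j₃ j *
          ∑ j₁, τ j₁ j₂ j₃ * ∑ k, R.κ j₁ k * (u (S.ed k) - u (S.be (S.vt k))) := by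
        rw [Finset.sum_comm]
        refine Finset.sum_congr rfl (fun j₂ _ => ?_)
        rw [Finset.sum_comm]
        refine Finset.sum_congr rfl (fun j₃ _ => ?_)
        rw [Finset.mul_sum]
        refine Finset.sum_congr rfl (fun j₁ _ => ?_)
        rw [Finset.mul_sum, Finset.mul_sum]
    _ = 0 := by simp only [key, mul_zero, Finset.sum_const_zero]

theorem Routes.κ_v_tn [DecidableEq J] (R : S.Routes v) (j i : J) (hi : S.vt i = v) :
    R.κ j i = if j = i then 1 else 0 := by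
  unfold Routes.κ
  rw [R.pp_v _ i hi, R.pp_v _ i hi]
  by_cases hij : i = j
  · subst hij; simp
  · simp [hij, Ne.symm hij]

theorem Routes.Φ_v (R : S.Routes v) (τ : J → J → J → ℤ) (hτ : S.Lharm3 v τ) (i j k : J)
    (hi : S.vt i = v) (hj : S.vt j = v) (hk : S.vt k = v) : R.Φ τ i j k = τ i j k := by
  classical
  have _ := hτ
  unfold Routes.Φ
  simp only [R.κ_v_tn _ i hi, R.κ_v_tn _ j hj, R.κ_v_tn _ k hk, mul_ite, mul_one, mul_zero,
    Finset.sum_ite_eq', Finset.mem_univ, if_true]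

end DG

end GB
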