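import Pool.Agent.Helper95.GB.TH.Defs

/-! # GB/TH/Theta: three branches at a vertex give a Theta_4

Let `R` be a system of routes in the graph minus `v`.
(A) If `ro e = l₁ ++ (a,b) :: l₂` then `ro (de a) = l₁`, `dv a = dv b ≠ v`, `a ≠ b`, `rt (de a) = rt e`, and if
`l₂ = (a',b') :: _` then `de a' = de b` (induction on `l₂` from the right with `r3`; for the last statement:
`ro (de a') = l₁ ++ [(a,b)]`, so `de b = de a'` by `r3`).  The last pair `(a,b)` of `ro e` has `de b = e`; if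
`ro e ≠ []`, its first pair `(a,b)` has `ro (de a) = []`, so `de a = rt e`.
(B) No vertex is visited twice by a route: if `ro e = l₁ ++ (a,b) :: l₂ ++ (a',b') :: l₃` and `dv a = dv a'` then
`a = a'` by `r4`, and `ro (de a)` would be both `l₁` and `l₁ ++ (a,b) :: l₂`.

Now let `(a,b₁) ∈ ro e₁`, `(a,b₂) ∈ ro e₂`, `(a,b₃) ∈ ro e₃` with `b₁, b₂, b₃` different and each `e_i` has a half-edge
`x_i` at `v`.  Let `w = dv a ≠ v`.  Write `ro e_i = l_i ++ (a,b_i) :: m_i`; `l_i = ro (de a) =: l` for all `i`.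
Paths from `v` to `w`:
* `P_i` (i = 1,2,3): if `m_i = (a¹,b¹), …, (aⁿ,bⁿ)`: the steps `(x_i, bⁿ), (aⁿ, bⁿ⁻¹), …, (a², b¹), (a¹, b_i)`; if
`m_i = []`: the single step `(x_i, b_i)`.
* `P_0`: with `l = (a¹,b¹), …, (aⁿ,bⁿ)` and `x_0` at `v` with `de x_0 = rt e₁` (`r0`): the steps
`(x_0, a¹), (b¹, a²), …, (bⁿ, a)`; if `l = []`: the single step `(x_0, a)`.
These are walks by (A): consecutive half-edges have the same edge, and they are different since they are at
different vertices ((B), and the vertices of the routes are `≠ v`).  They are paths by (B).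
Common vertices: an inner vertex of `P_i` and `P_k` (`1 ≤ i < k ≤ 3`): then `(a',b') ∈ m_i`, `(a',b'') ∈ m_k` (`r4`), and
`ro (de a')` starts with `l ++ [(a,b_i)]` and with `l ++ [(a,b_k)]`, so `b_i = b_k`.  An inner vertex of `P_0` and `P_i`
would be visited twice by `ro e_i`.
Common edges: if an edge `ε` is used by two of the paths, both ends of `ε` (only two half-edges, `TwoEnds`) are common
vertices, so they are `v` and `w` and both paths consist of this edge only; then `ε` has the half-edges `x` at `v` and two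
different ones of `a, b₁, b₂, b₃` at `w` (`a ≠ b_i`), contradicting `TwoEnds`.
-/

set_option autoImplicit false

namespace GB

namespace DG

/-- pairs of half-edges of the same edge between the consecutive pairs of a route portion -/
def gapTh {V J : Type} : (J ⊕ V) → List ((J ⊕ V) × (J ⊕ V)) → (J ⊕ V) →
    List ((J ⊕ V) × (J ⊕ V))
  | x, [], y => [(x, y)]
  | x, p :: m, y => (x, p.1) :: gapTh p.2 m y

/-- the condition under which `gapTh` is a walk -/
def GapTh {V J E : Type} (S : DG V J E) :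
    (J ⊕ V) → List ((J ⊕ V) × (J ⊕ V)) → (J ⊕ V) → Prop
  | x, [], y => S.de x = S.de y ∧ x ≠ y
  | x, p :: m, y => S.de x = S.de p.1 ∧ x ≠ p.1 ∧ S.dv p.1 = S.dv p.2 ∧ GapTh S p.2 m y

variable {V J E : Type} {S : DG V J E}

theorem isWalk_gapTh (m : List ((J ⊕ V) × (J ⊕ V))) (x y : J ⊕ V) (h : S.GapTh x m y) :
    S.IsWalk (S.dv x) (gapTh x m y) (S.dv y) := by
  induction m generalizing x with
  | nil => exact ⟨rfl, h.1, h.2, rfl⟩
  | cons p m ih =>
    refine ⟨rfl, h.1, h.2.1, ?_⟩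
    rw [h.2.2.1]
    exact ih _ h.2.2.2

theorem support_gapTh (u : V) (m : List ((J ⊕ V) × (J ⊕ V))) (x y : J ⊕ V) :
    S.support u (gapTh x m y) = u :: (m.map (fun p => S.dv p.1) ++ [S.dv y]) := by
  induction m generalizing x u with
  | nil => rfl
  | cons p m ih =>
    have := ih u p.2
    simp only [support, gapTh, List.map_cons, List.cons_append, List.cons.injEq, true_and] at this ⊢
    exact this

theorem mem_gapTh (m : List ((J ⊕ V) × (J ⊕ V))) (x y : J ⊕ V) (d : (J ⊕ V) × (J ⊕ V))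
    (h : d ∈ gapTh x m y) :
    (m = [] ∧ d = (x, y)) ∨ (∃ p ∈ m, d.1 = p.2 ∨ d.2 = p.1) := by
  induction m generalizing x with
  | nil =>
    left
    simpa [gapTh] using h
  | cons p m ih =>
    right
    rcases List.mem_cons.1 h with rfl | h
    · exact ⟨p, List.mem_cons_self, Or.inr rfl⟩
    · rcases ih _ h with ⟨rfl, rfl⟩ | ⟨q, hq, hq'⟩
      · exact ⟨p, List.mem_cons_self, Or.inl rfl⟩
      · exact ⟨q, List.mem_cons_of_mem _ hq, hq'⟩

theorem walk_mem_th {u v : V} {l : List ((J ⊕ V) × (J ⊕ V))} (h : S.IsWalk u l v)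
    {d : (J ⊕ V) × (J ⊕ V)} (hd : d ∈ l) :
    S.dv d.1 ∈ S.support u l ∧ S.dv d.2 ∈ S.support u l ∧ S.de d.1 = S.de d.2 ∧ d.1 ≠ d.2 := by
  induction l generalizing u with
  | nil => simp at hd
  | cons p l ih =>
    rcases List.mem_cons.1 hd with rfl | hd
    · refine ⟨?_, ?_, h.2.1, h.2.2.1⟩
      · rw [h.1]; exact List.mem_cons_self
      · exact List.mem_cons_of_mem _ (List.mem_cons_self)
    · obtain ⟨h1, h2, h3, h4⟩ := ih h.2.2.2 hd
      exact ⟨List.mem_cons_of_mem _ h1, List.mem_cons_of_mem _ h2, h3, h4⟩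

theorem walk_append_th {u w v : V} {l l' : List ((J ⊕ V) × (J ⊕ V))} (h : S.IsWalk u l w)
    (h' : S.IsWalk w l' v) : S.IsWalk u (l ++ l') v := by
  induction l generalizing u with
  | nil => simpa using (show u = w from h) ▸ h'
  | cons p l ih => exact ⟨h.1, h.2.1, h.2.2.1, ih h.2.2.2⟩

/-- reversed walk -/
def revTh (l : List ((J ⊕ V) × (J ⊕ V))) : List ((J ⊕ V) × (J ⊕ V)) :=
  (l.map (fun p => (p.2, p.1))).reverse

theorem revTh_cons (p : (J ⊕ V) × (J ⊕ V)) (l : List ((J ⊕ V) × (J ⊕ V))) :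
    revTh (p :: l) = revTh l ++ [(p.2, p.1)] := by
  simp [revTh]

theorem walk_revTh {u v : V} {l : List ((J ⊕ V) × (J ⊕ V))} (h : S.IsWalk u l v) :
    S.IsWalk v (revTh l) u := by
  induction l generalizing u with
  | nil => exact (show u = v from h).symm
  | cons p l ih =>
    rw [revTh_cons]
    refine walk_append_th (ih h.2.2.2) ⟨rfl, h.2.1.symm, Ne.symm h.2.2.1, ?_⟩
    exact h.1

theorem support_append_th (u : V) (l l' : List ((J ⊕ V) × (J ⊕ V))) :
    S.support u (l ++ l') = S.support u l ++ l'.map (fun p => S.dv p.2) := by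
  simp [support]

theorem support_revTh {u v : V} {l : List ((J ⊕ V) × (J ⊕ V))} (h : S.IsWalk u l v) :
    S.support v (revTh l) = (S.support u l).reverse := by
  induction l generalizing u with
  | nil =>
    have : u = v := h
    simp [support, revTh, this]
  | cons p l ih =>
    rw [revTh_cons, support_append_th, ih h.2.2.2]
    simp only [support, List.map_cons, List.map_nil, List.reverse_cons, h.1]

theorem mem_revTh {l : List ((J ⊕ V) × (J ⊕ V))} {d : (J ⊕ V) × (J ⊕ V)}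
    (h : d ∈ revTh l) : (d.2, d.1) ∈ l := by
  simp only [revTh, List.mem_reverse, List.mem_map] at h
  obtain ⟨p, hp, rfl⟩ := h
  exact hp

variable {v : V} (R : S.Routes v)

/-- (A) -/
theorem Routes.pre_th {e : E} {l₁ l₂ : List ((J ⊕ V) × (J ⊕ V))} {a b : J ⊕ V}
    (h : R.ro e = l₁ ++ (a, b) :: l₂) :
    R.ro (S.de a) = l₁ ∧ R.rt (S.de a) = R.rt e ∧ S.dv a = S.dv b ∧ S.dv a ≠ v ∧ a ≠ b ∧
      (l₂ = [] → S.de b = e) ∧ (∀ q l₃, l₂ = q :: l₃ → S.de q.1 = S.de b) := by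
  induction l₂ using List.reverseRecOn generalizing e with
  | nil =>
    obtain ⟨h1, h2, h3, h4, h5, h6⟩ := R.r3 e l₁ a b h
    exact ⟨h5, h6, h1, h2, h3, fun _ => h4, by intro q l₃ hq; simp at hq⟩
  | append_singleton l q ih =>
    obtain ⟨a', b'⟩ := q
    have h' : R.ro e = (l₁ ++ (a, b) :: l) ++ [(a', b')] := by rw [h]; simp
    obtain ⟨-, -, -, h4, h5, h6⟩ := R.r3 e _ a' b' h'
    obtain ⟨g1, g2, g3, g4, g5, g6, g7⟩ := ih h5
    refine ⟨g1, g2.trans h6, g3, g4, g5, by simp, ?_⟩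
    intro q l₃ hq
    cases l with
    | nil =>
      simp only [List.nil_append, List.cons.injEq] at hq
      rw [← hq.1]
      exact (g6 rfl).symm
    | cons q' l =>
      simp only [List.cons_append, List.cons.injEq] at hq
      rw [← hq.1]
      exact g7 q' l rfl

/-- (B) -/
theorem Routes.nod_th (e : E) : ((R.ro e).map (fun p => S.dv p.1)).Nodup := by
  rw [List.Nodup, List.pairwise_map]
  by_contra hcon
  rw [List.pairwise_iff_forall_sublist] at hcon
  push Not at hcon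
  obtain ⟨p, q, hs, hpq⟩ := hcon
  obtain ⟨a, b⟩ := p
  obtain ⟨a', b'⟩ := q
  have hpq' : S.dv a = S.dv a' := hpq
  obtain ⟨r₁, r₂, hr, h1, h2⟩ := List.cons_sublist_iff.1 hs
  obtain ⟨s₁, s₂, h3⟩ := List.append_of_mem h1
  have h2' : (a', b') ∈ r₂ := List.singleton_sublist.1 h2
  obtain ⟨t₁, t₂, h4⟩ := List.append_of_mem h2'
  have e1 : R.ro e = s₁ ++ (a, b) :: (s₂ ++ (t₁ ++ (a', b') :: t₂)) := by
    rw [hr, h3, h4]; simp
  have e2 : R.ro e = (s₁ ++ (a, b) :: (s₂ ++ t₁)) ++ (a', b') :: t₂ := by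
    rw [hr, h3, h4]; simp
  have haa : a = a' := by
    refine R.r4 e e a b a' b' ?_ ?_ hpq'
    · rw [e1]; simp
    · rw [e2]; simp
  have g1 := (R.pre_th e1).1
  have g2 := (R.pre_th e2).1
  rw [← haa, g1] at g2
  have := congrArg List.length g2
  simp at this

theorem Routes.ne_v_th {e : E} {p : (J ⊕ V) × (J ⊕ V)} (hp : p ∈ R.ro e) :
    S.dv p.1 = S.dv p.2 ∧ S.dv p.1 ≠ v := by
  obtain ⟨s, t, h⟩ := List.append_of_mem hp
  obtain ⟨a, b⟩ := p
  obtain ⟨-, -, g3, g4, -⟩ := R.pre_th h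
  exact ⟨g3, g4⟩

theorem Routes.gapC_th {e : E} {l₁ m : List ((J ⊕ V) × (J ⊕ V))} {a b y : J ⊕ V}
    (h : R.ro e = l₁ ++ (a, b) :: m) (hy : S.de y = e)
    (hy' : ∀ p ∈ R.ro e, S.dv p.1 ≠ S.dv y) : S.GapTh b m y := by
  induction m generalizing l₁ a b with
  | nil =>
    obtain ⟨-, -, g3, -, -, g6, -⟩ := R.pre_th h
    refine ⟨(g6 rfl).trans hy.symm, ?_⟩
    rintro rfl
    exact hy' (a, b) (by rw [h]; simp) g3
  | cons q m ih =>
    obtain ⟨a', b'⟩ := q
    obtain ⟨-, -, g3, -, -, -, g7⟩ := R.pre_th h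
    have h' : R.ro e = (l₁ ++ [(a, b)]) ++ (a', b') :: m := by rw [h]; simp
    obtain ⟨-, -, k3, -, -, -, -⟩ := R.pre_th h'
    refine ⟨(g7 _ _ rfl).symm, ?_, k3, ih h'⟩
    rintro rfl
    have hn := R.nod_th e
    rw [h] at hn
    simp only [List.map_append, List.map_cons] at hn
    have := (List.nodup_append.1 hn).2.1
    rw [List.nodup_cons] at this
    exact this.1 (by rw [g3]; exact List.mem_cons_self)

end DG

theorem DG.theta_of {V J E : Type} (S : DG V J E) (h2 : S.TwoEnds) (v : V) (R : S.Routes v)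
    (a b₁ b₂ b₃ : J ⊕ V) (e₁ e₂ e₃ : E) (h₁ : (a, b₁) ∈ R.ro e₁) (h₂ : (a, b₂) ∈ R.ro e₂)
    (h₃ : (a, b₃) ∈ R.ro e₃) (h12 : b₁ ≠ b₂) (h13 : b₁ ≠ b₃) (h23 : b₂ ≠ b₃)
    (x₁ : ∃ x, S.dv x = v ∧ S.de x = e₁) (x₂ : ∃ x, S.dv x = v ∧ S.de x = e₂)
    (x₃ : ∃ x, S.dv x = v ∧ S.de x = e₃) : S.HasTheta4 := by
  -- the data as families
  obtain ⟨l₁, m₁, hr₁⟩ := List.append_of_mem h₁
  obtain ⟨l₂, m₂, hr₂⟩ := List.append_of_mem h₂
  obtain ⟨l₃, m₃, hr₃⟩ := List.append_of_mem h₃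
  obtain ⟨x₁, hx₁, hx₁'⟩ := x₁
  obtain ⟨x₂, hx₂, hx₂'⟩ := x₂
  obtain ⟨x₃, hx₃, hx₃'⟩ := x₃
  have hl12 : l₁ = l₂ := (R.pre_th hr₁).1.symm.trans (R.pre_th hr₂).1
  have hl13 : l₁ = l₃ := (R.pre_th hr₁).1.symm.trans (R.pre_th hr₃).1
  subst hl12 hl13
  obtain ⟨x₀, hx₀, hx₀'⟩ := R.r0 e₁
  have hl : R.ro (S.de a) = l₁ := (R.pre_th hr₁).1
  have hav : S.dv a ≠ v := (R.pre_th hr₁).2.2.2.1
  -- the outgoing paths
  have out : ∀ (b x : J ⊕ V) (e : E) (m : List ((J ⊕ V) × (J ⊕ V))),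
      R.ro e = l₁ ++ (a, b) :: m → S.dv x = v → S.de x = e →
      S.IsWalk (S.dv a) (DG.gapTh b m x) v ∧
      S.support (S.dv a) (DG.gapTh b m x) = S.dv a :: (m.map (fun p => S.dv p.1) ++ [v]) ∧
      (S.support (S.dv a) (DG.gapTh b m x)).Nodup ∧
      (∀ p ∈ m, S.dv p.1 = S.dv p.2 ∧ S.dv p.1 ≠ v ∧ S.dv p.1 ≠ S.dv a) ∧ S.dv b = S.dv a := by
    intro b x e m h hx hx'
    have hb : S.dv b = S.dv a := (R.pre_th h).2.2.1.symm
    have hg : S.GapTh b m x := R.gapC_th h hx' (by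
      intro p hp
      rw [hx]
      exact (R.ne_v_th hp).2)
    have hw := DG.isWalk_gapTh m b x hg
    rw [hb, hx] at hw
    have hs := DG.support_gapTh (S := S) (S.dv a) m b x
    rw [hx] at hs
    have hn := R.nod_th e
    rw [h] at hn
    simp only [List.map_append, List.map_cons] at hn
    have hn' := (List.nodup_append.1 hn).2.1
    have hm : ∀ p ∈ m, S.dv p.1 = S.dv p.2 ∧ S.dv p.1 ≠ v ∧ S.dv p.1 ≠ S.dv a := by
      intro p hp
      have hp' : p ∈ R.ro e := by rw [h]; simp [hp]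
      refine ⟨(R.ne_v_th hp').1, (R.ne_v_th hp').2, ?_⟩
      intro hc
      rw [List.nodup_cons] at hn'
      exact hn'.1 (List.mem_map.2 ⟨p, hp, hc⟩)
    refine ⟨hw, hs, ?_, hm, hb⟩
    rw [hs, ← List.cons_append, List.nodup_append]
    refine ⟨hn', by simp, ?_⟩
    intro c hc c' hc'
    simp only [List.mem_singleton] at hc'
    subst hc'
    rcases List.mem_cons.1 hc with rfl | hc
    · exact hav
    · obtain ⟨p, hp, rfl⟩ := List.mem_map.1 hc
      exact (hm p hp).2.1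
  -- the incoming path
  have hla : ∀ p ∈ l₁, S.dv p.1 = S.dv p.2 ∧ S.dv p.1 ≠ v ∧ S.dv p.1 ≠ S.dv a := by
    intro p hp
    have hp' : p ∈ R.ro e₁ := by rw [hr₁]; simp [hp]
    refine ⟨(R.ne_v_th hp').1, (R.ne_v_th hp').2, ?_⟩
    intro hc
    have hn := R.nod_th e₁
    rw [hr₁] at hn
    simp only [List.map_append, List.map_cons] at hn
    exact (List.nodup_append.1 hn).2.2 _ (List.mem_map.2 ⟨p, hp, rfl⟩) _
      List.mem_cons_self hc
  have hC0 : S.GapTh x₀ l₁ a := by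
    cases hl1 : l₁ with
    | nil =>
      rw [hl1] at hl
      refine ⟨?_, ?_⟩
      · rw [hx₀', ← (R.pre_th hr₁).2.1]
        exact (R.r2 _ hl).symm
      · rintro rfl; exact hav hx₀
    | cons q l =>
      obtain ⟨a', b'⟩ := q
      rw [hl1] at hl
      have hq : R.ro (S.de a) = [] ++ (a', b') :: l := by simpa using hl
      obtain ⟨g1, g2, g3, g4, -⟩ := R.pre_th hq
      refine ⟨?_, ?_, g3, ?_⟩
      · show S.de x₀ = S.de a'
        rw [hx₀', R.r2 _ g1, g2, (R.pre_th hr₁).2.1]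
      · rintro rfl; exact g4 hx₀
      · refine R.gapC_th hq rfl ?_
        intro p hp
        rw [hl, ← hl1] at hp
        exact (hla p hp).2.2
  have hw0 := DG.isWalk_gapTh l₁ x₀ a hC0
  rw [hx₀] at hw0
  have hw0' := DG.walk_revTh hw0
  have hs0 := DG.support_revTh hw0
  rw [DG.support_gapTh] at hs0
  have hn0 : (S.support (S.dv a) (DG.revTh (DG.gapTh x₀ l₁ a))).Nodup := by
    rw [hs0, List.nodup_reverse, List.nodup_cons]
    constructor
    · intro hc
      rcases List.mem_append.1 hc with hc | hc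
      · obtain ⟨p, hp, hp'⟩ := List.mem_map.1 hc
        exact (hla p hp).2.1 hp'
      · simp only [List.mem_singleton] at hc
        exact hav hc.symm
    · rw [List.nodup_append]
      have hn := R.nod_th e₁
      rw [hr₁] at hn
      simp only [List.map_append, List.map_cons] at hn
      refine ⟨(List.nodup_append.1 hn).1, by simp, ?_⟩
      intro c hc c' hc'
      simp only [List.mem_singleton] at hc'
      subst hc'
      obtain ⟨p, hp, rfl⟩ := List.mem_map.1 hc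
      exact (hla p hp).2.2
  have mem0 : ∀ c, c ∈ S.support (S.dv a) (DG.revTh (DG.gapTh x₀ l₁ a)) →
      c = S.dv a ∨ c = v ∨ ∃ p ∈ l₁, S.dv p.1 = c := by
    intro c hc
    rw [hs0, List.mem_reverse] at hc
    rcases List.mem_cons.1 hc with rfl | hc
    · exact Or.inr (Or.inl rfl)
    · rcases List.mem_append.1 hc with hc | hc
      · obtain ⟨p, hp, hp'⟩ := List.mem_map.1 hc
        exact Or.inr (Or.inr ⟨p, hp, hp'⟩)
      · simp only [List.mem_singleton] at hc
        exact Or.inl hc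
  -- common vertices of two outgoing paths
  have key : ∀ (b x : J ⊕ V) (e : E) (m : List ((J ⊕ V) × (J ⊕ V)))
      (b' x' : J ⊕ V) (e' : E) (m' : List ((J ⊕ V) × (J ⊕ V))),
      R.ro e = l₁ ++ (a, b) :: m → S.dv x = v → S.de x = e →
      R.ro e' = l₁ ++ (a, b') :: m' → S.dv x' = v → S.de x' = e' → b ≠ b' →
      (∀ c, c ∈ S.support (S.dv a) (DG.gapTh b m x) →
        c ∈ S.support (S.dv a) (DG.gapTh b' m' x') → c = S.dv a ∨ c = v) ∧
      (∀ d ∈ DG.gapTh b m x, ∀ d' ∈ DG.gapTh b' m' x', S.de d.1 ≠ S.de d'.1) := by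
    intro b x e m b' x' e' m' h hx hx' h' hy hy' hbb
    obtain ⟨hw, hs, hn, hm, hb⟩ := out b x e m h hx hx'
    obtain ⟨hw', hs', hn', hm', hb'⟩ := out b' x' e' m' h' hy hy'
    have hcomm : ∀ p ∈ m, ∀ q ∈ m', S.dv p.1 ≠ S.dv q.1 := by
      intro p hp q hq hc
      obtain ⟨s, t, hst⟩ := List.append_of_mem hp
      obtain ⟨s', t', hst'⟩ := List.append_of_mem hq
      obtain ⟨a₁, c₁⟩ := p
      obtain ⟨a₂, c₂⟩ := q
      have haa : a₁ = a₂ := R.r4 e e' a₁ c₁ a₂ c₂ (by rw [h]; simp [hp]) (by rw [h']; simp [hq]) hc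
      have g1 := (R.pre_th (show R.ro e = (l₁ ++ (a, b) :: s) ++ (a₁, c₁) :: t by
        rw [h, hst]; simp)).1
      have g2 := (R.pre_th (show R.ro e' = (l₁ ++ (a, b') :: s') ++ (a₂, c₂) :: t' by
        rw [h', hst']; simp)).1
      rw [← haa, g1] at g2
      have g3 := List.append_cancel_left g2
      simp only [List.cons.injEq, Prod.mk.injEq, true_and] at g3
      exact hbb g3.1
    have hv : ∀ c, c ∈ S.support (S.dv a) (DG.gapTh b m x) →
        c ∈ S.support (S.dv a) (DG.gapTh b' m' x') → c = S.dv a ∨ c = v := by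
      intro c hc hc'
      rw [hs] at hc
      rw [hs'] at hc'
      rcases List.mem_cons.1 hc with rfl | hc
      · exact Or.inl rfl
      rcases List.mem_append.1 hc with hc | hc
      · rcases List.mem_cons.1 hc' with rfl | hc'
        · exact Or.inl rfl
        rcases List.mem_append.1 hc' with hc' | hc'
        · obtain ⟨p, hp, rfl⟩ := List.mem_map.1 hc
          obtain ⟨q, hq, hq'⟩ := List.mem_map.1 hc'
          exact absurd hq'.symm (hcomm p hp q hq)
        · exact Or.inr (List.mem_singleton.1 hc')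
      · exact Or.inr (List.mem_singleton.1 hc)
    refine ⟨hv, ?_⟩
    intro d hd d' hd' hdd
    obtain ⟨k1, k2, k3, k4⟩ := DG.walk_mem_th hw hd
    obtain ⟨k1', k2', k3', k4'⟩ := DG.walk_mem_th hw' hd'
    have hset : (d.1 = d'.1 ∧ d.2 = d'.2) ∨ (d.1 = d'.2 ∧ d.2 = d'.1) := by
      rcases h2 d.1 d'.1 d'.2 hdd k3' with h | h | h
      · left
        refine ⟨h, ?_⟩
        rcases h2 d.2 d'.1 d'.2 (k3.symm.trans hdd) k3' with g | g | g
        · exact absurd (h.trans g.symm) k4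
        · exact absurd g k4'
        · exact g
      · exact absurd h k4'
      · right
        refine ⟨h, ?_⟩
        rcases h2 d.2 d'.1 d'.2 (k3.symm.trans hdd) k3' with g | g | g
        · exact g
        · exact absurd g k4'
        · exact absurd (h.trans g.symm) k4
    have c1 : S.dv d.1 = S.dv a ∨ S.dv d.1 = v := hv _ k1 (by
      rcases hset with ⟨g, -⟩ | ⟨g, -⟩ <;> rw [g] <;> assumption)
    have c2 : S.dv d.2 = S.dv a ∨ S.dv d.2 = v := hv _ k2 (by
      rcases hset with ⟨-, g⟩ | ⟨-, g⟩ <;> rw [g] <;> assumption)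
    have c1' : S.dv d'.1 = S.dv a ∨ S.dv d'.1 = v := by
      rcases hset with ⟨g, g'⟩ | ⟨g, g'⟩
      · rw [← g]; exact c1
      · rw [← g']; exact c2
    have c2' : S.dv d'.2 = S.dv a ∨ S.dv d'.2 = v := by
      rcases hset with ⟨g, g'⟩ | ⟨g, g'⟩
      · rw [← g']; exact c2
      · rw [← g]; exact c1
    have single : ∀ (b x : J ⊕ V) (m : List ((J ⊕ V) × (J ⊕ V))) (d : (J ⊕ V) × (J ⊕ V)),
        d ∈ DG.gapTh b m x →
        (∀ p ∈ m, S.dv p.1 = S.dv p.2 ∧ S.dv p.1 ≠ v ∧ S.dv p.1 ≠ S.dv a) →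
        (S.dv d.1 = S.dv a ∨ S.dv d.1 = v) → (S.dv d.2 = S.dv a ∨ S.dv d.2 = v) →
        d = (b, x) := by
      intro b x m d hd hm c1 c2
      rcases DG.mem_gapTh m b x d hd with ⟨-, h⟩ | ⟨p, hp, h | h⟩
      · exact h
      · exfalso
        obtain ⟨q1, q2, q3⟩ := hm p hp
        rw [h, ← q1] at c1
        rcases c1 with c | c
        · exact q3 c
        · exact q2 c
      · exfalso
        obtain ⟨q1, q2, q3⟩ := hm p hp
        rw [h] at c2
        rcases c2 with c | c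
        · exact q3 c
        · exact q2 c
    have s1 := single b x m d hd hm c1 c2
    have s2 := single b' x' m' d' hd' hm' c1' c2'
    subst s1 s2
    rcases hset with ⟨g, -⟩ | ⟨g, -⟩
    · exact hbb g
    · have g' : b = x' := g
      apply hav
      rw [← hb, g', hy]
  -- the incoming path and an outgoing path
  have key0 : ∀ (b x : J ⊕ V) (e : E) (m : List ((J ⊕ V) × (J ⊕ V))),
      R.ro e = l₁ ++ (a, b) :: m → S.dv x = v → S.de x = e →
      (∀ c, c ∈ S.support (S.dv a) (DG.revTh (DG.gapTh x₀ l₁ a)) →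
        c ∈ S.support (S.dv a) (DG.gapTh b m x) → c = S.dv a ∨ c = v) ∧
      (∀ d ∈ DG.revTh (DG.gapTh x₀ l₁ a), ∀ d' ∈ DG.gapTh b m x, S.de d.1 ≠ S.de d'.1) := by
    intro b x e m h hx hx'
    obtain ⟨hw, hs, hn, hm, hb⟩ := out b x e m h hx hx'
    have hv : ∀ c, c ∈ S.support (S.dv a) (DG.revTh (DG.gapTh x₀ l₁ a)) →
        c ∈ S.support (S.dv a) (DG.gapTh b m x) → c = S.dv a ∨ c = v := by
      intro c hc hc'
      rcases mem0 c hc with h' | h' | ⟨p, hp, rfl⟩
      · exact Or.inl h'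
      · exact Or.inr h'
      rw [hs] at hc'
      rcases List.mem_cons.1 hc' with h' | hc'
      · exact Or.inl h'
      rcases List.mem_append.1 hc' with hc' | hc'
      · exfalso
        obtain ⟨q, hq, hq'⟩ := List.mem_map.1 hc'
        have hn := R.nod_th e
        rw [h] at hn
        simp only [List.map_append, List.map_cons] at hn
        exact (List.nodup_append.1 hn).2.2 _ (List.mem_map.2 ⟨p, hp, rfl⟩) _
          (List.mem_cons_of_mem _ (List.mem_map.2 ⟨q, hq, rfl⟩)) hq'.symm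
      · exact Or.inr (List.mem_singleton.1 hc')
    refine ⟨hv, ?_⟩
    intro d hd d' hd' hdd
    obtain ⟨k1, k2, k3, k4⟩ := DG.walk_mem_th hw0' hd
    obtain ⟨k1', k2', k3', k4'⟩ := DG.walk_mem_th hw hd'
    have hset : (d.1 = d'.1 ∧ d.2 = d'.2) ∨ (d.1 = d'.2 ∧ d.2 = d'.1) := by
      rcases h2 d.1 d'.1 d'.2 hdd k3' with h | h | h
      · left
        refine ⟨h, ?_⟩
        rcases h2 d.2 d'.1 d'.2 (k3.symm.trans hdd) k3' with g | g | g
        · exact absurd (h.trans g.symm) k4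
        · exact absurd g k4'
        · exact g
      · exact absurd h k4'
      · right
        refine ⟨h, ?_⟩
        rcases h2 d.2 d'.1 d'.2 (k3.symm.trans hdd) k3' with g | g | g
        · exact g
        · exact absurd g k4'
        · exact absurd (h.trans g.symm) k4
    have c1 : S.dv d.1 = S.dv a ∨ S.dv d.1 = v := hv _ k1 (by
      rcases hset with ⟨g, -⟩ | ⟨g, -⟩ <;> rw [g] <;> assumption)
    have c2 : S.dv d.2 = S.dv a ∨ S.dv d.2 = v := hv _ k2 (by
      rcases hset with ⟨-, g⟩ | ⟨-, g⟩ <;> rw [g] <;> assumption)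
    have c1' : S.dv d'.1 = S.dv a ∨ S.dv d'.1 = v := by
      rcases hset with ⟨g, g'⟩ | ⟨g, g'⟩
      · rw [← g]; exact c1
      · rw [← g']; exact c2
    have c2' : S.dv d'.2 = S.dv a ∨ S.dv d'.2 = v := by
      rcases hset with ⟨g, g'⟩ | ⟨g, g'⟩
      · rw [← g']; exact c2
      · rw [← g]; exact c1
    have s2 : d' = (b, x) := by
      rcases DG.mem_gapTh m b x d' hd' with ⟨-, h⟩ | ⟨p, hp, h | h⟩
      · exact h
      · exfalso
        obtain ⟨q1, q2, q3⟩ := hm p hp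
        rw [h, ← q1] at c1'
        rcases c1' with c | c
        · exact q3 c
        · exact q2 c
      · exfalso
        obtain ⟨q1, q2, q3⟩ := hm p hp
        rw [h] at c2'
        rcases c2' with c | c
        · exact q3 c
        · exact q2 c
    have s1 : d = (a, x₀) := by
      rcases DG.mem_gapTh l₁ x₀ a _ (DG.mem_revTh hd) with ⟨-, h⟩ | ⟨p, hp, h | h⟩
      · simp only [Prod.mk.injEq] at h
        exact Prod.ext h.2 h.1
      · exfalso
        obtain ⟨q1, q2, q3⟩ := hla p hp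
        have h' : d.2 = p.2 := h
        rw [h', ← q1] at c2
        rcases c2 with c | c
        · exact q3 c
        · exact q2 c
      · exfalso
        obtain ⟨q1, q2, q3⟩ := hla p hp
        have h' : d.1 = p.1 := h
        rw [h'] at c1
        rcases c1 with c | c
        · exact q3 c
        · exact q2 c
    subst s1 s2
    rcases hset with ⟨g, -⟩ | ⟨g, -⟩
    · exact (R.pre_th h).2.2.2.2.1 g
    · have g' : a = x := g
      apply hav
      rw [g', hx]
  -- assembly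
  have o1 := out b₁ x₁ e₁ m₁ hr₁ hx₁ hx₁'
  have o2 := out b₂ x₂ e₂ m₂ hr₂ hx₂ hx₂'
  have o3 := out b₃ x₃ e₃ m₃ hr₃ hx₃ hx₃'
  have k01 := key0 b₁ x₁ e₁ m₁ hr₁ hx₁ hx₁'
  have k02 := key0 b₂ x₂ e₂ m₂ hr₂ hx₂ hx₂'
  have k03 := key0 b₃ x₃ e₃ m₃ hr₃ hx₃ hx₃'
  have k12 := key b₁ x₁ e₁ m₁ b₂ x₂ e₂ m₂ hr₁ hx₁ hx₁' hr₂ hx₂ hx₂' h12
  have k13 := key b₁ x₁ e₁ m₁ b₃ x₃ e₃ m₃ hr₁ hx₁ hx₁' hr₃ hx₃ hx₃' h13
  have k23 := key b₂ x₂ e₂ m₂ b₃ x₃ e₃ m₃ hr₂ hx₂ hx₂' hr₃ hx₃ hx₃' h23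
  have sym : ∀ {P Q : List ((J ⊕ V) × (J ⊕ V))},
      ((∀ c, c ∈ S.support (S.dv a) P → c ∈ S.support (S.dv a) Q → c = S.dv a ∨ c = v) ∧
        (∀ d ∈ P, ∀ d' ∈ Q, S.de d.1 ≠ S.de d'.1)) →
      ((∀ c, c ∈ S.support (S.dv a) Q → c ∈ S.support (S.dv a) P → c = S.dv a ∨ c = v) ∧
        (∀ d ∈ Q, ∀ d' ∈ P, S.de d.1 ≠ S.de d'.1)) := by
    intro P Q h
    exact ⟨fun c h1 h2 => h.1 c h2 h1, fun d hd d' hd' => (h.2 d' hd' d hd).symm⟩
  refine ⟨S.dv a, v, ![DG.revTh (DG.gapTh x₀ l₁ a), DG.gapTh b₁ m₁ x₁, DG.gapTh b₂ m₂ x₂,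
    DG.gapTh b₃ m₃ x₃], hav, ?_, ?_⟩
  · intro i
    fin_cases i
    · exact ⟨hw0', hn0⟩
    · exact ⟨o1.1, o1.2.2.1⟩
    · exact ⟨o2.1, o2.2.2.1⟩
    · exact ⟨o3.1, o3.2.2.1⟩
  · intro i j hij
    fin_cases i <;> fin_cases j
    · exact absurd rfl hij
    · exact k01
    · exact k02
    · exact k03
    · exact sym k01
    · exact absurd rfl hij
    · exact k12
    · exact k13
    · exact sym k02
    · exact sym k12
    · exact absurd rfl hij
    · exact k23
    · exact sym k03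
    · exact sym k13
    · exact sym k23
    · exact absurd rfl hij

end GB
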