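import Pool.Agent.Helper95.GB.TH.Route
import Pool.Agent.Helper95.GB.TH.Theta
import Pool.Agent.Helper95.GB.TH.Tensor

/-! # GB/TH/Main: no Theta_4 implies `THprop` (stub, prove in place)

Proof.  Let `R` be a system of routes for `v` (`exists_routes`), `Φ = R.Φ τ` (`Φ_alt`, `Φ_harm`, `Φ_v`).  It remains to show:
`Φ i₁ i₂ i₃ = 0` for `i₁, i₂, i₃` at a common vertex `w ≠ v`.

Let `Rt` be the set of edges which have a half-edge at `v` (`ed j` for `vt j = v`, and `be v`).  If no route `ro e`,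
`e ∈ Rt`, visits `w`, then `κ j i = 0` for `j` at `v`, `i` at `w` and we are done.  Otherwise let `a` be the half-edge
through which `w` is entered (`r4`: the same for all routes) and let `B` be the (finite) set of the `b` with
`(a,b) ∈ ro e` for some `e ∈ Rt`.  By `theta_of` and `hθ` the set `B` has at most two elements.
A route visits `w` at most once (see (B) in `Theta`; reprove it here or use it from there: if
`ro e = l₁ ++ (a,b) :: l₂ ++ (a,b') :: l₃`, then `ro (de a)` is `l₁` and also `l₁ ++ (a,b) :: l₂`).  So for `e ∈ Rt` and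
`i` at `w`: `pp e i = ∑ b ∈ B, [(a,b) ∈ ro e] * g b i`, `g b i = [b = inl i] - [a = inl i]`.  Hence for `j, i` with
`vt j = v`, `vt i = w`: `κ j i = ∑ b ∈ B, n j b * g b i` with `n j b = [(a,b) ∈ ro (be v)] - [(a,b) ∈ ro (ed j)]`, and
`Φ i₁ i₂ i₃ = ∑ b₁ b₂ b₃ ∈ B, T b₁ b₂ b₃ * g b₁ i₁ * g b₂ i₂ * g b₃ i₃`, where
`T b₁ b₂ b₃ = ∑ j₁ j₂ j₃, τ j₁ j₂ j₃ * n j₁ b₁ * n j₂ b₂ * n j₃ b₃` is alternating, so it vanishes if two of the `b`'s
are equal, and of three elements of `B` two are always equal.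
-/

set_option autoImplicit false

namespace GB

namespace DG

variable {V J E : Type} {S : DG V J E} {v : V}

/-- the trilinear form of a tensor -/
def tri [Fintype J] (τ : J → J → J → ℤ) (x y z : J → ℤ) : ℤ :=
  ∑ j₁, ∑ j₂, ∑ j₃, τ j₁ j₂ j₃ * x j₁ * y j₂ * z j₃

theorem tri_swap12 [Fintype J] {τ : J → J → J → ℤ} (h : Alt3 τ) (x y z : J → ℤ) :
    tri τ y x z = - tri τ x y z := by
  unfold tri
  rw [Finset.sum_comm, ← Finset.sum_neg_distrib]
  refine Finset.sum_congr rfl (fun a _ => ?_)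
  rw [← Finset.sum_neg_distrib]
  refine Finset.sum_congr rfl (fun b _ => ?_)
  rw [← Finset.sum_neg_distrib]
  refine Finset.sum_congr rfl (fun c _ => ?_)
  rw [h.1 a b c]
  ring

theorem tri_swap23 [Fintype J] {τ : J → J → J → ℤ} (h : Alt3 τ) (x y z : J → ℤ) :
    tri τ x z y = - tri τ x y z := by
  unfold tri
  rw [← Finset.sum_neg_distrib]
  refine Finset.sum_congr rfl (fun a _ => ?_)
  rw [Finset.sum_comm, ← Finset.sum_neg_distrib]
  refine Finset.sum_congr rfl (fun b _ => ?_)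
  rw [← Finset.sum_neg_distrib]
  refine Finset.sum_congr rfl (fun c _ => ?_)
  rw [h.2 a b c]
  ring

theorem tri_xxz [Fintype J] {τ : J → J → J → ℤ} (h : Alt3 τ) (x z : J → ℤ) :
    tri τ x x z = 0 := by
  have := tri_swap12 h x x z
  omega

theorem tri_xyy [Fintype J] {τ : J → J → J → ℤ} (h : Alt3 τ) (x y : J → ℤ) :
    tri τ x y y = 0 := by
  have := tri_swap23 h x y y
  omega

theorem tri_xyx [Fintype J] {τ : J → J → J → ℤ} (h : Alt3 τ) (x y : J → ℤ) :
    tri τ x y x = 0 := by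
  have h1 := tri_swap23 h x x y
  rw [tri_xxz h] at h1
  omega

theorem tri_lin [Fintype J] (τ : J → J → J → ℤ) (x y : J → ℤ) (a b c a' b' c' : ℤ) :
    tri τ (fun j => x j * a + y j * a') (fun j => x j * b + y j * b')
      (fun j => x j * c + y j * c') =
      a * b * c * tri τ x x x + a * b * c' * tri τ x x y + a * b' * c * tri τ x y x +
        a * b' * c' * tri τ x y y + a' * b * c * tri τ y x x + a' * b * c' * tri τ y x y +
        a' * b' * c * tri τ y y x + a' * b' * c' * tri τ y y y := by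
  unfold tri
  simp only [Finset.mul_sum, ← Finset.sum_add_distrib]
  refine Finset.sum_congr rfl (fun _ _ => Finset.sum_congr rfl (fun _ _ =>
    Finset.sum_congr rfl (fun _ _ => ?_)))
  ring

theorem tri_two [Fintype J] {τ : J → J → J → ℤ} (h : Alt3 τ) (x y : J → ℤ)
    (a b c a' b' c' : ℤ) :
    tri τ (fun j => x j * a + y j * a') (fun j => x j * b + y j * b')
      (fun j => x j * c + y j * c') = 0 := by
  rw [tri_lin, tri_xxz h, tri_xxz h, tri_xxz h, tri_xxz h, tri_xyx h, tri_xyy h, tri_xyy h,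
    tri_xyx h]
  ring

/-- the part of a route at a vertex -/
theorem Routes.pp_zero_mn [Fintype J] (R : S.Routes v) (e : E) (i : J)
    (h : ∀ p ∈ R.ro e, S.dv p.1 ≠ S.vt i) : R.pp e i = 0 := by
  classical
  unfold Routes.pp
  apply List.sum_eq_zero
  intro x hx
  obtain ⟨p, hp, rfl⟩ := List.mem_map.1 hx
  have h1 := h p hp
  have h2 := (R.ne_v_th hp).1
  have e1 : p.1 ≠ Sum.inl i := by
    intro hc; rw [hc] at h1; exact h1 rfl
  have e2 : p.2 ≠ Sum.inl i := by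
    intro hc; rw [h2, hc] at h1; exact h1 rfl
  simp [e1, e2]

open Classical in
theorem Routes.pp_one_mn [Fintype J] (R : S.Routes v) (e : E) (i : J)
    (p : (J ⊕ V) × (J ⊕ V)) (hp : p ∈ R.ro e) (hw : S.dv p.1 = S.vt i) :
    R.pp e i = (if p.2 = Sum.inl i then (1 : ℤ) else 0) -
      (if p.1 = Sum.inl i then (1 : ℤ) else 0) := by
  obtain ⟨s, t, h⟩ := List.append_of_mem hp
  have hnod := R.nod_th e
  rw [h, List.map_append, List.map_cons] at hnod
  have hz : ∀ q, q ∈ R.ro e → S.dv q.1 ≠ S.vt i →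
      (if q.2 = Sum.inl i then (1 : ℤ) else 0) - (if q.1 = Sum.inl i then (1 : ℤ) else 0) = 0 := by
    intro q hq h1
    have h2 := (R.ne_v_th hq).1
    have e1 : q.1 ≠ Sum.inl i := by
      intro hc; rw [hc] at h1; exact h1 rfl
    have e2 : q.2 ≠ Sum.inl i := by
      intro hc; rw [h2, hc] at h1; exact h1 rfl
    simp [e1, e2]
  rw [List.nodup_append] at hnod
  obtain ⟨-, h2, h3⟩ := hnod
  rw [List.nodup_cons] at h2
  have hs : (s.map (fun p : (J ⊕ V) × (J ⊕ V) => (if p.2 = Sum.inl i then (1 : ℤ) else 0) -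
      (if p.1 = Sum.inl i then (1 : ℤ) else 0))).sum = 0 := by
    apply List.sum_eq_zero
    intro x hx
    obtain ⟨q, hq, rfl⟩ := List.mem_map.1 hx
    apply hz q (by rw [h]; exact List.mem_append_left _ hq)
    intro hc
    exact h3 (S.dv q.1) (List.mem_map.2 ⟨q, hq, rfl⟩) (S.dv p.1) List.mem_cons_self
      (hc.trans hw.symm)
  have ht : (t.map (fun p : (J ⊕ V) × (J ⊕ V) => (if p.2 = Sum.inl i then (1 : ℤ) else 0) -
      (if p.1 = Sum.inl i then (1 : ℤ) else 0))).sum = 0 := by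
    apply List.sum_eq_zero
    intro x hx
    obtain ⟨q, hq, rfl⟩ := List.mem_map.1 hx
    apply hz q (by rw [h]; exact List.mem_append_right _ (List.mem_cons_of_mem _ hq))
    intro hc
    exact h2.1 (List.mem_map.2 ⟨q, hq, hc.trans hw.symm⟩)
  unfold Routes.pp
  rw [h, List.map_append, List.map_cons, List.sum_append, List.sum_cons]
  rw [hs, ht, zero_add, add_zero]

/-- At most two branches. -/
theorem Routes.two_mn (h2 : S.TwoEnds) (hθ : ¬ S.HasTheta4) (R : S.Routes v) (w : V) :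
    ∃ a b₁ b₂ : J ⊕ V, ∀ e, (∃ x, S.dv x = v ∧ S.de x = e) → ∀ p ∈ R.ro e, S.dv p.1 = w →
      p = (a, b₁) ∨ p = (a, b₂) := by
  by_cases hA : ∃ e, (∃ x, S.dv x = v ∧ S.de x = e) ∧ ∃ p ∈ R.ro e, S.dv p.1 = w
  · obtain ⟨e₁, he₁, ⟨a, b₁⟩, hp₁, hw₁⟩ := hA
    have ha : ∀ e, ∀ p ∈ R.ro e, S.dv p.1 = w → p.1 = a := by
      intro e p hp hw
      exact R.r4 e e₁ p.1 p.2 a b₁ hp hp₁ (hw.trans hw₁.symm)
    by_cases hB : ∃ e, (∃ x, S.dv x = v ∧ S.de x = e) ∧ ∃ b, (a, b) ∈ R.ro e ∧ b ≠ b₁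
    · obtain ⟨e₂, he₂, b₂, hp₂, hb₂⟩ := hB
      refine ⟨a, b₁, b₂, fun e he p hp hw => ?_⟩
      have h1 := ha e p hp hw
      obtain ⟨p1, b⟩ := p
      simp only at h1
      subst h1
      by_contra hcon
      rw [not_or] at hcon
      apply hθ
      refine DG.theta_of S h2 v R p1 b₁ b₂ b e₁ e₂ e hp₁ hp₂ hp hb₂.symm ?_ ?_ he₁ he₂ he
      · rintro rfl
        exact hcon.1 rfl
      · rintro rfl
        exact hcon.2 rfl
    · refine ⟨a, b₁, b₁, fun e he p hp hw => ?_⟩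
      have h1 := ha e p hp hw
      obtain ⟨p1, b⟩ := p
      simp only at h1
      subst h1
      left
      by_contra hcon
      exact hB ⟨e, he, b, hp, fun hc => hcon (by rw [hc])⟩
  · refine ⟨.inr w, .inr w, .inr w, fun e he p hp hw => ?_⟩
    exact absurd ⟨e, he, p, hp, hw⟩ hA

theorem Routes.split_mn [Fintype J] (h2 : S.TwoEnds) (hθ : ¬ S.HasTheta4) (R : S.Routes v)
    (w : V) : ∃ (n₁ n₂ : E → ℤ) (g₁ g₂ : J → ℤ), ∀ e, (∃ x, S.dv x = v ∧ S.de x = e) →
      ∀ i, S.vt i = w → R.pp e i = n₁ e * g₁ i + n₂ e * g₂ i := by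
  classical
  obtain ⟨a, b₁, b₂, hab⟩ := R.two_mn h2 hθ w
  refine ⟨fun e => if (a, b₁) ∈ R.ro e ∧ S.dv a = w then 1 else 0,
    fun e => if ¬ ((a, b₁) ∈ R.ro e ∧ S.dv a = w) ∧ (a, b₂) ∈ R.ro e ∧ S.dv a = w then 1 else 0,
    fun i => (if b₁ = Sum.inl i then (1 : ℤ) else 0) - (if a = Sum.inl i then (1 : ℤ) else 0),
    fun i => (if b₂ = Sum.inl i then (1 : ℤ) else 0) - (if a = Sum.inl i then (1 : ℤ) else 0),
    fun e he i hi => ?_⟩
  by_cases c1 : (a, b₁) ∈ R.ro e ∧ S.dv a = w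
  · have h3 := R.pp_one_mn e i (a, b₁) c1.1 (c1.2.trans hi.symm)
    beta_reduce
    rw [if_pos c1, if_neg (fun h : ¬ ((a, b₁) ∈ R.ro e ∧ S.dv a = w) ∧
        (a, b₂) ∈ R.ro e ∧ S.dv a = w => h.1 c1), one_mul, zero_mul, add_zero]
    exact h3
  · by_cases c2 : (a, b₂) ∈ R.ro e ∧ S.dv a = w
    · have h3 := R.pp_one_mn e i (a, b₂) c2.1 (c2.2.trans hi.symm)
      beta_reduce
      rw [if_neg c1, if_pos (⟨c1, c2⟩ : ¬ ((a, b₁) ∈ R.ro e ∧ S.dv a = w) ∧
        (a, b₂) ∈ R.ro e ∧ S.dv a = w), one_mul, zero_mul, zero_add]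
      exact h3
    · have h3 : R.pp e i = 0 := by
        apply R.pp_zero_mn e i
        intro p hp hw
        rw [hi] at hw
        rcases hab e he p hp hw with rfl | rfl
        · exact c1 ⟨hp, hw⟩
        · exact c2 ⟨hp, hw⟩
      beta_reduce
      rw [if_neg c1, if_neg (fun h : ¬ ((a, b₁) ∈ R.ro e ∧ S.dv a = w) ∧
        (a, b₂) ∈ R.ro e ∧ S.dv a = w => c2 h.2), zero_mul, zero_mul, add_zero]
      exact h3

end DG

theorem DG.th_of {V J E : Type} [Fintype J] (S : DG V J E) (hconn : S.Conn) (h2 : S.TwoEnds)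
    (hθ : ¬ S.HasTheta4) : S.THprop := by
  classical
  intro v τ hτ
  obtain ⟨R⟩ := S.exists_routes hconn v
  refine ⟨R.Φ τ, R.Φ_alt τ hτ, R.Φ_harm τ hτ, fun i j k hi hj hk => R.Φ_v τ hτ i j k hi hj hk,
    fun i j k hi hj hk => ?_⟩
  obtain ⟨n₁, n₂, g₁, g₂, hsp⟩ := R.split_mn h2 hθ (S.vt i)
  have hκ : ∀ j', S.vt j' = v → ∀ i', S.vt i' = S.vt i →
      R.κ j' i' = (n₁ (S.be v) - n₁ (S.ed j')) * g₁ i' + (n₂ (S.be v) - n₂ (S.ed j')) * g₂ i' := by
    intro j' hj' i' hi'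
    have hne : i' ≠ j' := by
      rintro rfl
      exact hi (hi'.symm.trans hj')
    unfold Routes.κ
    rw [if_neg hne, hsp (S.ed j') ⟨.inl j', hj', rfl⟩ i' hi', hsp (S.be v) ⟨.inr v, rfl, rfl⟩ i' hi']
    ring
  obtain ⟨halt, hsupp, -⟩ := hτ
  have hs1 : ∀ a b c, S.vt a ≠ v → τ a b c = 0 := hsupp
  have hs2 : ∀ a b c, S.vt b ≠ v → τ a b c = 0 := by
    intro a b c h
    have := halt.1 b a c
    rw [hs1 b a c h] at this
    simpa using this
  have hs3 : ∀ a b c, S.vt c ≠ v → τ a b c = 0 := by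
    intro a b c h
    have := halt.2 a c b
    rw [hs2 a c b h] at this
    simpa using this
  have key := DG.tri_two halt (fun j' => n₁ (S.be v) - n₁ (S.ed j'))
    (fun j' => n₂ (S.be v) - n₂ (S.ed j')) (g₁ i) (g₁ j) (g₁ k) (g₂ i) (g₂ j) (g₂ k)
  rw [← key]
  unfold Routes.Φ DG.tri
  refine Finset.sum_congr rfl (fun a _ => Finset.sum_congr rfl (fun b _ =>
    Finset.sum_congr rfl (fun c _ => ?_)))
  by_cases ha : S.vt a = v
  · by_cases hb : S.vt b = v
    · by_cases hc : S.vt c = v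
      · rw [hκ a ha i rfl, hκ b hb j hj, hκ c hc k hk]
      · rw [hs3 a b c hc]
        ring
    · rw [hs2 a b c hb]
      ring
  · rw [hs1 a b c ha]
    ring

end GB
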