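import Pool.Agent.Helper95.GB.Iface

/-! # GB/TH: routes in the graph minus a vertex -/

set_option autoImplicit false

namespace GB

/-- A system of routes in the graph minus the vertex `v`: `rt e` is the root edge of the component of the
edge `e`, a list of pairs `(a, b)` of half-edges at the same vertex (`a` incoming, `b` outgoing) leads
from `rt e` to `e`; the system is closed under prefixes and each vertex is always entered through the
same half-edge. -/
structure DG.Routes {V J E : Type} (S : DG V J E) (v : V) where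
  rt : E → E
  ro : E → List ((J ⊕ V) × (J ⊕ V))
  r0 : ∀ e, ∃ x, S.dv x = v ∧ S.de x = rt e
  r1 : ∀ e e', S.Adj v e e' → rt e = rt e'
  r1' : ∀ e, rt (rt e) = rt e
  r2 : ∀ e, ro e = [] → e = rt e
  r3 : ∀ e l a b, ro e = l ++ [(a, b)] → S.dv a = S.dv b ∧ S.dv a ≠ v ∧ a ≠ b ∧ S.de b = e ∧
    ro (S.de a) = l ∧ rt (S.de a) = rt e
  r4 : ∀ e e' a b a' b', (a, b) ∈ ro e → (a', b') ∈ ro e' → S.dv a = S.dv a' → a = a'

end GB
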