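import Pool.Agent.Helper95.GB.TH.Defs

/-! # GB/TH/Route: existence of routes (breadth first search) (stub, prove in place)

Proof.  For each class of the equivalence relation generated by `Adj v` choose a root edge `rt e` (constant on the
class) of the form `be v` or `ed k` with `vt k = v` (`hconn v e`; so `r0` holds with `x = inr v` or `x = inl k`).
Say that two edges are neighbours if they have half-edges (elements of `J ⊕ V`) at a common vertex `w ≠ v`; two
neighbours are in the same class (each edge at `w` is `be w` or `Adj` to `be w`).  Each edge of the class is connected to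
`rt e` by neighbour steps; let `d e` be the length of a shortest chain of neighbours from `rt e` to `e`
(`d e = 0 ↔ e = rt e`; if `e, e'` are neighbours then `d e ≤ d e' + 1`; if `d e = n + 1` then `e` has a neighbour `e'`
with `d e' = n`).  (For instance define `d` by `Nat.find` on `Relation` iterates, or use `SimpleGraph.dist`.)
For each vertex `w ≠ v` choose a half-edge `inn w` at `w` with `d (de (inn w))` minimal (there is one: `inr w`).
For an edge `e` with `d e = n + 1` choose a half-edge `out e` with `de (out e) = e`, at a vertex `w ≠ v` with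
`d (de (inn w)) = n` (exists: take a neighbour `e'` of `e` with `d e' = n`, at the vertex `w`; then `d (de (inn w)) ≤ n`,
and `≥ n` since `e` is a neighbour of `de (inn w)` at `w`).
Define `ro e` by recursion on `d e`: `ro e = []` if `d e = 0`, and
`ro e = ro (de (inn w)) ++ [(inn w, out e)]`, `w = dv (out e)`, otherwise.
`r2`: `ro e = []` only if `d e = 0`.  `r3`: `a = inn w ≠ out e = b` because `d (de a) < d e`.
`r4`: all pairs in all routes are of the form `(inn w, _)` with `w = dv (inn w)`.
-/

set_option autoImplicit false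

namespace GB

section

variable {V J E : Type} (S : DG V J E) (v : V)

/-- edges with half-edges at a common vertex different from `v` -/
private def Nb (e e' : E) : Prop :=
  ∃ x y : J ⊕ V, S.dv x = S.dv y ∧ S.dv x ≠ v ∧ S.de x = e ∧ S.de y = e'

/-- chains of neighbours -/
private def Rn : ℕ → E → E → Prop
  | 0, r, e => e = r
  | n + 1, r, e => ∃ e', Rn n r e' ∧ Nb S v e' e

private theorem adj_symm {e e' : E} (h : S.Adj v e e') : S.Adj v e' e := by
  obtain ⟨k, hk, h | h⟩ := h
  · exact ⟨k, hk, Or.inr ⟨h.2, h.1⟩⟩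
  · exact ⟨k, hk, Or.inl ⟨h.2, h.1⟩⟩

private theorem rtg_symm {e e' : E} (h : Relation.ReflTransGen (S.Adj v) e e') :
    Relation.ReflTransGen (S.Adj v) e' e := by
  induction h with
  | refl => exact Relation.ReflTransGen.refl
  | tail _ h ih => exact ih.head (adj_symm S v h)

/-- connected components -/
private def cls : Setoid E where
  r := Relation.ReflTransGen (S.Adj v)
  iseqv := ⟨fun _ => Relation.ReflTransGen.refl, fun h => rtg_symm S v h,
    fun h h' => Relation.ReflTransGen.trans h h'⟩

variable {S v}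

private theorem adj_nb {e e' : E} (h : S.Adj v e e') : Nb S v e e' := by
  obtain ⟨k, hk, ⟨rfl, rfl⟩ | ⟨rfl, rfl⟩⟩ := h
  · exact ⟨.inl k, .inr (S.vt k), rfl, hk, rfl, rfl⟩
  · exact ⟨.inr (S.vt k), .inl k, rfl, hk, rfl, rfl⟩

private theorem be_cls (x : J ⊕ V) (hx : S.dv x ≠ v) :
    Relation.ReflTransGen (S.Adj v) (S.de x) (S.be (S.dv x)) := by
  rcases x with k | w
  · exact Relation.ReflTransGen.single ⟨k, hx, Or.inl ⟨rfl, rfl⟩⟩
  · exact Relation.ReflTransGen.refl

private theorem nb_cls {e e' : E} (h : Nb S v e e') : Relation.ReflTransGen (S.Adj v) e e' := by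
  obtain ⟨x, y, h1, h2, rfl, rfl⟩ := h
  have h3 := be_cls x h2
  have h4 := be_cls y (h1 ▸ h2)
  rw [h1] at h3
  exact h3.trans (rtg_symm S v h4)

private theorem rn_of_rtg {r e : E} (h : Relation.ReflTransGen (S.Adj v) r e) : ∃ n, Rn S v n r e := by
  induction h with
  | refl => exact ⟨0, rfl⟩
  | tail _ hbc ih =>
    obtain ⟨n, hn⟩ := ih
    exact ⟨n + 1, _, hn, adj_nb hbc⟩

end

theorem DG.exists_routes {V J E : Type} (S : DG V J E) (hconn : S.Conn) (v : V) :
    Nonempty (S.Routes v) := by
  classical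
  -- the roots
  choose f hf1 hf2 using fun e => hconn v e
  let rt : E → E := fun e => f (Quotient.out (Quotient.mk (cls S v) e))
  have hrt : ∀ e, Relation.ReflTransGen (S.Adj v) (rt e) e := by
    intro e
    have h1 := hf2 (Quotient.out (Quotient.mk (cls S v) e))
    have h2 : (cls S v).r (Quotient.out (Quotient.mk (cls S v) e)) e := Quotient.mk_out (s := cls S v) e
    exact h1.trans h2
  have hrtc : ∀ e e', Relation.ReflTransGen (S.Adj v) e e' → rt e = rt e' := by
    intro e e' h
    have h1 : Quotient.mk (cls S v) e = Quotient.mk (cls S v) e' := Quotient.sound (s := cls S v) h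
    simp only [rt, h1]
  -- the distance
  have hreach : ∀ e, ∃ n, Rn S v n (rt e) e := fun e => rn_of_rtg (hrt e)
  let d : E → ℕ := fun e => Nat.find (hreach e)
  have hd : ∀ e, Rn S v (d e) (rt e) e := fun e => Nat.find_spec (hreach e)
  have hdle : ∀ e n, Rn S v n (rt e) e → d e ≤ n := fun e n h => Nat.find_min' (hreach e) h
  have F0 : ∀ e, d e = 0 → e = rt e := fun e h => by
    have h1 := hd e
    rw [h] at h1
    exact h1
  have F1 : ∀ e e', Nb S v e e' → d e' ≤ d e + 1 := fun e e' h => by
    refine hdle _ _ ⟨e, ?_, h⟩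
    rw [← hrtc e e' (nb_cls h)]
    exact hd e
  have F2 : ∀ e n, d e = n + 1 → ∃ e', Nb S v e' e ∧ d e' = n := fun e n h => by
    have h1 := hd e
    rw [h] at h1
    obtain ⟨e', h2, h3⟩ := h1
    refine ⟨e', h3, le_antisymm (hdle _ _ ?_) ?_⟩
    · rw [hrtc e' e (nb_cls h3)]
      exact h2
    · have := F1 e' e h3
      omega
  -- entering half-edges
  have hinn : ∀ w, ∃ x : J ⊕ V, S.dv x = w ∧ ∀ y, S.dv y = w → d (S.de x) ≤ d (S.de y) := by
    intro w
    have h1 : ∃ n, ∃ x : J ⊕ V, S.dv x = w ∧ d (S.de x) = n := ⟨_, .inr w, rfl, rfl⟩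
    obtain ⟨x, h2, h3⟩ := Nat.find_spec h1
    refine ⟨x, h2, fun y hy => ?_⟩
    rw [h3]
    exact Nat.find_min' h1 ⟨y, hy, rfl⟩
  choose inn hinn1 hinn2 using hinn
  have hout : ∀ e, ∃ b : J ⊕ V, d e ≠ 0 →
      S.de b = e ∧ S.dv b ≠ v ∧ d (S.de (inn (S.dv b))) + 1 = d e := by
    intro e
    by_cases h0 : d e = 0
    · exact ⟨.inr v, fun h => absurd h0 h⟩
    · obtain ⟨n, hn⟩ := Nat.exists_eq_succ_of_ne_zero h0
      obtain ⟨e', ⟨x, y, h1, h2, h3, h4⟩, h5⟩ := F2 e n hn
      refine ⟨y, fun _ => ⟨h4, h1 ▸ h2, ?_⟩⟩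
      have h6 : d (S.de (inn (S.dv y))) ≤ n := by
        have := hinn2 (S.dv y) x h1
        rw [h3, h5] at this
        exact this
      have h7 : d e ≤ d (S.de (inn (S.dv y))) + 1 := by
        refine F1 _ _ ⟨inn (S.dv y), y, hinn1 _, ?_, rfl, h4⟩
        rw [hinn1]
        exact h1 ▸ h2
      omega
  choose out hout using hout
  -- the routes
  let prev : E → E := fun e => S.de (inn (S.dv (out e)))
  let roN : ℕ → E → List ((J ⊕ V) × (J ⊕ V)) := fun n =>
    Nat.rec (fun _ => []) (fun _ g e => g (prev e) ++ [(inn (S.dv (out e)), out e)]) n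
  have hro0 : ∀ e, roN 0 e = [] := fun e => rfl
  have hroS : ∀ n e, roN (n + 1) e = roN n (prev e) ++ [(inn (S.dv (out e)), out e)] := fun n e => rfl
  let ro : E → List ((J ⊕ V) × (J ⊕ V)) := fun e => roN (d e) e
  have hro : ∀ e, d e ≠ 0 → ro e = ro (prev e) ++ [(inn (S.dv (out e)), out e)] := by
    intro e h
    have h1 : d (prev e) + 1 = d e := (hout e h).2.2
    show roN (d e) e = roN (d (prev e)) (prev e) ++ _
    rw [← h1, hroS]
  have hroz : ∀ e, d e = 0 → ro e = [] := fun e h => by
    show roN (d e) e = []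
    rw [h, hro0]
  have hmem : ∀ n e a b, (a, b) ∈ roN n e → a = inn (S.dv a) := by
    intro n
    induction n with
    | zero =>
      intro e a b h
      rw [hro0] at h
      exact absurd h List.not_mem_nil
    | succ n ih =>
      intro e a b h
      rw [hroS, List.mem_append, List.mem_singleton, Prod.mk.injEq] at h
      rcases h with h | ⟨h, -⟩
      · exact ih _ _ _ h
      · rw [h, hinn1]
  refine ⟨⟨rt, ro, ?_, ?_, ?_, ?_, ?_, ?_⟩⟩
  · intro e
    rcases hf1 (Quotient.out (Quotient.mk (cls S v) e)) with h | ⟨k, hk, h⟩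
    · exact ⟨.inr v, rfl, h.symm⟩
    · exact ⟨.inl k, hk, h.symm⟩
  · exact fun e e' h => hrtc e e' (Relation.ReflTransGen.single h)
  · exact fun e => hrtc _ _ (hrt e)
  · intro e h
    by_cases h0 : d e = 0
    · exact F0 e h0
    · rw [hro e h0] at h
      simp at h
  · intro e l a b h
    by_cases h0 : d e = 0
    · rw [hroz e h0] at h
      simp at h
    · rw [hro e h0] at h
      obtain ⟨h1, h2⟩ := List.append_inj' h rfl
      rw [List.singleton_inj, Prod.mk.injEq] at h2
      obtain ⟨h3, h4⟩ := h2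
      obtain ⟨h5, h6, h7⟩ := hout e h0
      subst h3 h4
      refine ⟨hinn1 _, ?_, ?_, h5, h1, ?_⟩
      · rw [hinn1]
        exact h6
      · intro h8
        rw [h8, h5] at h7
        omega
      · refine hrtc _ _ (nb_cls ⟨inn (S.dv (out e)), out e, hinn1 _, ?_, rfl, h5⟩)
        rw [hinn1]
        exact h6
  · intro e e' a b a' b' h h' h1
    rw [hmem _ _ _ _ h, hmem _ _ _ _ h', h1]

end GB
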